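import Pool.Agent.H60.CM.Basic

/-!
# Small neighbourhoods with connected interior part (row LC1)
-/

set_option autoImplicit false

open Set Function MeasureTheory Filter Topology
open scoped Manifold ContDiff Matrix
open Pool.Agent.H60.CM

namespace Pool.Agent.H93.CM

theorem pf_LC1 : T_LC1 := by
  intro D p U hU hp
  set e := extChartAt (𝓡∂ 2) p with he
  have hps : p ∈ e.source := mem_extChartAt_source p
  -- the preimage of U under the inverse chart
  have h1 : e.symm ⁻¹' U ∩ e.target ∈ 𝓝[range (𝓡∂ 2)] (e p) := by
    refine Filter.inter_mem ?_ (extChartAt_target_mem_nhdsWithin p)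
    have hc : ContinuousWithinAt e.symm (range (𝓡∂ 2)) (e p) :=
      (continuousAt_extChartAt_symm p).continuousWithinAt
    refine hc ?_
    rw [e.left_inv hps]
    exact hU.mem_nhds hp
  obtain ⟨ε, hε, hb⟩ := Metric.mem_nhdsWithin_iff.mp h1
  set B := Metric.ball (e p) ε with hB
  refine ⟨e.source ∩ e ⁻¹' B, ?_, ⟨hps, Metric.mem_ball_self hε⟩, ?_, ?_⟩
  · exact (continuousOn_extChartAt p).isOpen_inter_preimage (isOpen_extChartAt_source p)
      Metric.isOpen_ball
  · rintro q ⟨hq1, hq2⟩
    have h2 : e q ∈ range (𝓡∂ 2) := extChartAt_target_subset_range p (e.map_source hq1)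
    have h3 := (hb ⟨hq2, h2⟩).1
    rw [mem_preimage, e.left_inv hq1] at h3
    exact h3
  · have hkey : e.source ∩ e ⁻¹' B ∩ D.int = e.symm '' (B ∩ interior (range (𝓡∂ 2))) := by
      ext q
      constructor
      · rintro ⟨⟨hq1, hq2⟩, hq3⟩
        refine ⟨e q, ⟨hq2, ?_⟩, e.left_inv hq1⟩
        have hqs : q ∈ (chartAt (EuclideanHalfSpace 2) p).source := by
          rw [he, extChartAt_source] at hq1
          exact hq1
        have := ((𝓡∂ 2).isInteriorPoint_iff_of_mem_atlas (n := ∞) (by simp)
          (chart_mem_atlas (EuclideanHalfSpace 2) p) hqs).mp hq3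
        exact interior_mono (extChartAt_target_subset_range p) this
      · rintro ⟨y, ⟨hy1, hy2⟩, rfl⟩
        have hyt : y ∈ e.target := (hb ⟨hy1, interior_subset hy2⟩).2
        have hys := e.map_target hyt
        refine ⟨⟨hys, ?_⟩, ?_⟩
        · rw [mem_preimage, e.right_inv hyt]
          exact hy1
        · have hqs : e.symm y ∈ (chartAt (EuclideanHalfSpace 2) p).source := by
            rw [he, extChartAt_source] at hys
            exact hys
          refine ((𝓡∂ 2).isInteriorPoint_iff_of_mem_atlas (n := ∞) (by simp)
            (chart_mem_atlas (EuclideanHalfSpace 2) p) hqs).mpr ?_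
          have h5 : B ∩ interior (range (𝓡∂ 2)) ⊆ interior e.target :=
            interior_maximal (fun z hz => (hb ⟨hz.1, interior_subset hz.2⟩).2)
              (Metric.isOpen_ball.inter isOpen_interior)
          have h6 : e (e.symm y) ∈ interior e.target := by
            rw [e.right_inv hyt]
            exact h5 ⟨hy1, hy2⟩
          exact h6
    rw [hkey]
    refine IsPreconnected.image ?_ _ ?_
    · refine Convex.isPreconnected ?_
      refine (convex_ball _ _).inter ?_
      rw [interior_range_modelWithCornersEuclideanHalfSpace]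
      intro x hx y hy a b ha hb2 hab
      have hx' : 0 < x 0 := hx
      have hy' : 0 < y 0 := hy
      show 0 < (a • x + b • y) 0
      simp only [PiLp.add_apply, PiLp.smul_apply, smul_eq_mul]
      rcases eq_or_lt_of_le ha with h0 | h0
      · have hb1 : b = 1 := by linarith
        rw [← h0, hb1]
        linarith
      · have := mul_pos h0 hx'
        have := mul_nonneg hb2 hy'.le
        linarith
    · refine (continuousOn_extChartAt_symm p).mono ?_
      intro y hy
      exact (hb ⟨hy.1, interior_subset hy.2⟩).2

end Pool.Agent.H93.CM
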