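import Pool.Agent.H60.CM.Basic

/-!
# The disc (row UDK)
-/

set_option autoImplicit false

open Set Function MeasureTheory Filter Topology
open scoped Manifold ContDiff Matrix
open Pool.Agent.H60.CM

namespace Pool.Agent.H93.CM

theorem udk_dot (y : V3) : y ⬝ᵥ y = y 0 ^ 2 + y 1 ^ 2 + y 2 ^ 2 := by
  rw [dotProduct, Fin.sum_univ_three]
  ring

theorem udk_key (x y : V3) (a b : ℝ) (hab : a + b = 1) :
    (a • x + b • y) ⬝ᵥ (a • x + b • y) =
      a * (x ⬝ᵥ x) + b * (y ⬝ᵥ y) - a * b * ((x 0 - y 0) ^ 2 + (x 1 - y 1) ^ 2 +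
        (x 2 - y 2) ^ 2) := by
  rw [udk_dot, udk_dot, udk_dot]
  have hb : b = 1 - a := by linarith
  subst hb
  simp only [Pi.add_apply, Pi.smul_apply, smul_eq_mul]
  ring

theorem udk_conv_le (c : ℝ) : Convex ℝ {y : V3 | y 2 = 0 ∧ y ⬝ᵥ y ≤ c} := by
  intro x hx y hy a b ha hb hab
  refine ⟨?_, ?_⟩
  · simp only [Pi.add_apply, Pi.smul_apply, smul_eq_mul]
    rw [hx.1, hy.1]
    ring
  · rw [udk_key x y a b hab]
    have h1 : 0 ≤ a * b * ((x 0 - y 0) ^ 2 + (x 1 - y 1) ^ 2 + (x 2 - y 2) ^ 2) := by positivity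
    have h2 : a * (x ⬝ᵥ x) ≤ a * c := mul_le_mul_of_nonneg_left hx.2 ha
    have h3 : b * (y ⬝ᵥ y) ≤ b * c := mul_le_mul_of_nonneg_left hy.2 hb
    have h4 : a * c + b * c = c := by rw [← add_mul, hab, one_mul]
    linarith

theorem udk_conv_lt (c : ℝ) : Convex ℝ {y : V3 | y 2 = 0 ∧ y ⬝ᵥ y < c} := by
  intro x hx y hy a b ha hb hab
  refine ⟨?_, ?_⟩
  · simp only [Pi.add_apply, Pi.smul_apply, smul_eq_mul]
    rw [hx.1, hy.1]
    ring
  · rw [udk_key x y a b hab]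
    have h1 : 0 ≤ a * b * ((x 0 - y 0) ^ 2 + (x 1 - y 1) ^ 2 + (x 2 - y 2) ^ 2) := by positivity
    have h2 : a * (x ⬝ᵥ x) ≤ a * c := mul_le_mul_of_nonneg_left hx.2.le ha
    have h3 : b * (y ⬝ᵥ y) ≤ b * c := mul_le_mul_of_nonneg_left hy.2.le hb
    have h4 : a * c + b * c = c := by rw [← add_mul, hab, one_mul]
    rcases eq_or_lt_of_le ha with h0 | h0
    · have hb1 : b = 1 := by linarith
      have := hy.2
      rw [← h0, hb1]
      simp only [zero_mul, one_mul, zero_add, sub_zero]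
      exact this
    · have h2' : a * (x ⬝ᵥ x) < a * c := mul_lt_mul_of_pos_left hx.2 h0
      linarith

theorem udk_cont : Continuous fun y : V3 => y ⬝ᵥ y := by
  have : (fun y : V3 => y ⬝ᵥ y) = fun y : V3 => y 0 ^ 2 + y 1 ^ 2 + y 2 ^ 2 := by
    funext y
    exact udk_dot y
  rw [this]
  fun_prop

theorem pf_UDK : T_UDK := by
  intro r hr
  have hconv : Convex ℝ (Kdi r) := udk_conv_le (r ^ 2)
  have hne : (Kdi r).Nonempty := by
    refine ⟨0, ?_, ?_⟩
    · rfl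
    · rw [udk_dot]
      simp only [Pi.zero_apply]
      nlinarith [sq_nonneg r]
  have hdiff : Kdi r \ circ r = {y : V3 | y 2 = 0 ∧ y ⬝ᵥ y < r ^ 2} := by
    ext y
    constructor
    · rintro ⟨⟨h1, h2⟩, h3⟩
      refine ⟨h1, lt_of_le_of_ne h2 ?_⟩
      intro h
      exact h3 ⟨h1, h⟩
    · rintro ⟨h1, h2⟩
      exact ⟨⟨h1, h2.le⟩, fun h => absurd h.2 h2.ne⟩
  refine ⟨?_, ?_, ?_, ?_, ?_, ?_, ?_⟩
  · have hcl : IsClosed (Kdi r) := by
      have h1 : IsClosed {y : V3 | y 2 = 0} := isClosed_eq (continuous_apply 2) continuous_const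
      have h2 : IsClosed {y : V3 | y ⬝ᵥ y ≤ r ^ 2} := isClosed_le udk_cont continuous_const
      exact h1.inter h2
    refine Metric.isCompact_of_isClosed_isBounded hcl ?_
    refine (Metric.isBounded_closedBall (x := (0 : V3)) (r := r)).subset ?_
    intro y hy
    rw [mem_closedBall_zero_iff, pi_norm_le_iff_of_nonneg hr.le]
    have h1 := hy.2
    rw [udk_dot] at h1
    have hs : ∀ i : Fin 3, y i ^ 2 ≤ r ^ 2 := by
      intro i
      fin_cases i
      · show y 0 ^ 2 ≤ r ^ 2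
        nlinarith [sq_nonneg (y 1), sq_nonneg (y 2)]
      · show y 1 ^ 2 ≤ r ^ 2
        nlinarith [sq_nonneg (y 0), sq_nonneg (y 2)]
      · show y 2 ^ 2 ≤ r ^ 2
        nlinarith [sq_nonneg (y 0), sq_nonneg (y 1)]
    intro i
    rw [Real.norm_eq_abs]
    exact abs_le_of_sq_le_sq (hs i) hr.le
  · intro y hy
    exact ⟨hy.1, hy.2.le⟩
  · intro y hy
    exact hy.1
  · refine ⟨{y : V3 | y ⬝ᵥ y < r ^ 2}, isOpen_lt udk_cont continuous_const, ?_⟩
    rw [hdiff]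
    ext y
    exact ⟨fun h => ⟨h.2, h.1⟩, fun h => ⟨h.2, h.1⟩⟩
  · have := hconv.contractibleSpace hne
    infer_instance
  · exact hconv.locallyPathConnectedSpace
  · intro y _ W hW hyW
    obtain ⟨ε, hε, hb⟩ := Metric.isOpen_iff.mp hW y hyW
    refine ⟨Metric.ball y ε, Metric.isOpen_ball, Metric.mem_ball_self hε, hb, ?_⟩
    rw [hdiff]
    exact ((udk_conv_lt (r ^ 2)).inter (convex_ball y ε)).isPreconnected

end Pool.Agent.H93.CM
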